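import Pool.Agent.Lib.MP_07117b_nt_h64.Defs

/-!
The algebraic identities for the maps `P`, `X` and the Klein four group.
-/

namespace Pool.Agent.Arb.Cst

variable {F : Type*} [Field F] [CharZero F] (c : Cst F)

/-- good points: `P w` is defined, nonzero and `P(w)^6 ≠ 1` (so that `V4` acts freely). -/
def Good (w : F) : Prop := 1 - 2 * c.a * w ^ 3 ≠ 0 ∧ c.P w ≠ 0 ∧ c.P w ^ 6 ≠ 1

variable {c}

/-! ### Preliminaries -/

theorem three_ne' : (3 : F) ≠ 0 := by norm_num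

theorem nine_ne' : (9 : F) ≠ 0 := by norm_num

omit [CharZero F] in
theorem ω3 : c.ω ^ 3 = 1 := by
  linear_combination (c.ω - 1) * c.hω

omit [CharZero F] in
theorem ω_ne : c.ω ≠ 0 := by
  intro h
  have := c.hω
  rw [h] at this
  simp at this

theorem r_ne : 1 + 2 * c.ω ≠ 0 := by
  intro h
  have h3 : (3 : F) = 0 := by
    linear_combination 4 * c.hω - (1 + 2 * c.ω) * h
  exact three_ne' h3

omit [CharZero F] in
theorem ωw3 (w : F) : (c.ω * w) ^ 3 = w ^ 3 := by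
  linear_combination (w ^ 3) * (ω3 (c := c))

omit [CharZero F] in
theorem ω2w3 (w : F) : (c.ω ^ 2 * w) ^ 3 = w ^ 3 := by
  linear_combination (w ^ 3) * (c.ω ^ 3 + 1) * (ω3 (c := c))

omit [CharZero F] in
/-- `aw + 1` divides `1 - 2 a w^3` -/
theorem aw_ne {w : F} (h : 1 - 2 * c.a * w ^ 3 ≠ 0) : c.a * w + 1 ≠ 0 := by
  intro h0
  apply h
  linear_combination w ^ 2 * c.ha + (1 - c.a * w - 2 * w ^ 2) * h0

omit [CharZero F] in
theorem aω_ne {w : F} (h : 1 - 2 * c.a * w ^ 3 ≠ 0) : c.a * (c.ω * w) + 1 ≠ 0 := by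
  apply aw_ne
  rwa [ωw3]

omit [CharZero F] in
theorem aω2_ne {w : F} (h : 1 - 2 * c.a * w ^ 3 ≠ 0) : c.a * (c.ω ^ 2 * w) + 1 ≠ 0 := by
  apply aw_ne
  rwa [ω2w3]

omit [CharZero F] in
/-- symmetries of `P` -/
theorem P_ω (w : F) : c.P (c.ω * w) = c.ω * c.P w := by
  unfold P
  rw [ωw3]
  ring

omit [CharZero F] in
theorem P_ω2 (w : F) : c.P (c.ω ^ 2 * w) = c.ω ^ 2 * c.P w := by
  unfold P
  rw [ω2w3]
  ring

omit [CharZero F] in
/-- `a s0 + 1 = 3/(aw+1)` -/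
theorem a_s0 {w : F} (h : c.a * w + 1 ≠ 0) : c.a * c.s0 w + 1 = 3 / (c.a * w + 1) := by
  unfold s0
  field_simp
  linear_combination (-1) * c.ha

theorem a_s0_ne {w : F} (h : c.a * w + 1 ≠ 0) : c.a * c.s0 w + 1 ≠ 0 := by
  rw [a_s0 h]
  exact div_ne_zero three_ne' h

theorem s0_s0 {w : F} (h : c.a * w + 1 ≠ 0) : c.s0 (c.s0 w) = w := by
  have h1 := a_s0 h
  have h2 : c.s0 (c.s0 w) = -(c.s0 w + c.a) / (c.a * c.s0 w + 1) := rfl
  have ht : c.s0 w * (c.a * w + 1) = -(w + c.a) := by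
    unfold s0
    rw [div_mul_cancel₀ _ h]
  rw [h2, h1, div_div_eq_mul_div, div_eq_iff three_ne']
  linear_combination (-1) * ht - w * c.ha

omit [CharZero F] in
theorem den_s0 {w : F} (h : 1 - 2 * c.a * w ^ 3 ≠ 0) :
    1 - 2 * c.a * (c.s0 w) ^ 3 = 9 * (1 - 2 * c.a * w ^ 3) / (c.a * w + 1) ^ 4 := by
  have h1 := aw_ne h
  unfold s0
  rw [eq_div_iff (pow_ne_zero 4 h1)]
  have h2 : (1 - 2 * c.a * (-(w + c.a) / (c.a * w + 1)) ^ 3) * (c.a * w + 1) ^ 4 =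
      (c.a * w + 1) * ((c.a * w + 1) ^ 3 - 2 * c.a * (-(w + c.a)) ^ 3) := by
    field_simp
  rw [h2]
  linear_combination (2*c.a^3*w + c.a^2*w^4 + 6*c.a^2*w^2 + 2*c.a^2 + 10*c.a*w^3 + 2*c.a*w - 4)
    * c.ha

omit [CharZero F] in
theorem num_s0 {w : F} (h : 1 - 2 * c.a * w ^ 3 ≠ 0) :
    c.s0 w * ((c.s0 w) ^ 3 - 2 * c.a) = 9 * (w * (w ^ 3 - 2 * c.a)) / (c.a * w + 1) ^ 4 := by
  have h1 := aw_ne h
  have ht : c.s0 w * (c.a * w + 1) = -(w + c.a) := by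
    unfold s0
    rw [div_mul_cancel₀ _ h1]
  rw [eq_div_iff (pow_ne_zero 4 h1)]
  have h2 : c.s0 w * ((c.s0 w) ^ 3 - 2 * c.a) * (c.a * w + 1) ^ 4 =
      (c.s0 w * (c.a * w + 1)) * ((c.s0 w * (c.a * w + 1)) ^ 3 -
        2 * c.a * (c.a * w + 1) ^ 3) := by
    ring
  rw [h2, ht]
  linear_combination (2*c.a^3*w^3 + 2*c.a^2*w^4 + 6*c.a^2*w^2 + c.a^2 + 2*c.a*w^3 + 10*c.a*w
    - 4*w^4) * c.ha

theorem P_s0 {w : F} (h : 1 - 2 * c.a * w ^ 3 ≠ 0) : c.P (c.s0 w) = c.P w := by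
  have h1 := aw_ne h
  have h3 := nine_ne' (F := F)
  have h4 : c.P (c.s0 w) = c.s0 w * ((c.s0 w) ^ 3 - 2 * c.a) / (1 - 2 * c.a * (c.s0 w) ^ 3) := rfl
  rw [h4, den_s0 h, num_s0 h, div_div_div_cancel_right₀ (pow_ne_zero 4 h1),
    mul_div_mul_left _ _ h3]
  rfl

theorem den_s0_ne {w : F} (h : 1 - 2 * c.a * w ^ 3 ≠ 0) : 1 - 2 * c.a * (c.s0 w) ^ 3 ≠ 0 := by
  rw [den_s0 h]
  exact div_ne_zero (mul_ne_zero nine_ne' h) (pow_ne_zero 4 (aw_ne h))

theorem Good.s0 {w : F} (h : c.Good w) : c.Good (c.s0 w) := by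
  refine ⟨den_s0_ne h.1, ?_, ?_⟩
  · rw [P_s0 h.1]
    exact h.2.1
  · rw [P_s0 h.1]
    exact h.2.2

omit [CharZero F] in
theorem Good.mulω {w : F} (h : c.Good w) : c.Good (c.ω * w) := by
  refine ⟨?_, ?_, ?_⟩
  · rw [ωw3]
    exact h.1
  · rw [P_ω]
    exact mul_ne_zero ω_ne h.2.1
  · rw [P_ω]
    have h2 : (c.ω * c.P w) ^ 6 = c.P w ^ 6 := by
      linear_combination (c.P w) ^ 6 * (c.ω ^ 3 + 1) * (ω3 (c := c))
    rw [h2]
    exact h.2.2

omit [CharZero F] in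
theorem Good.mulω2 {w : F} (h : c.Good w) : c.Good (c.ω ^ 2 * w) := by
  have h1 := h.mulω.mulω
  have h2 : c.ω * (c.ω * w) = c.ω ^ 2 * w := by ring
  rwa [h2] at h1

omit [CharZero F] in
theorem S_zero (w : F) : c.S 0 w = w := by
  unfold S
  exact if_pos rfl

omit [CharZero F] in
theorem S_10 (w : F) : c.S (1, 0) w = c.s0 w := by
  unfold S
  rw [if_neg (by decide), if_pos rfl]

omit [CharZero F] in
theorem S_01 (w : F) : c.S (0, 1) w = c.ω * c.s0 (c.ω ^ 2 * w) := by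
  unfold S
  rw [if_neg (by decide), if_neg (by decide), if_pos rfl]

omit [CharZero F] in
theorem S_11 (w : F) : c.S (1, 1) w = c.ω ^ 2 * c.s0 (c.ω * w) := by
  unfold S
  rw [if_neg (by decide), if_neg (by decide), if_neg (by decide)]

theorem V4_cases (v : V4) : v = 0 ∨ v = (1, 0) ∨ v = (0, 1) ∨ v = (1, 1) := by
  revert v
  decide

theorem Good.S {w : F} (h : c.Good w) (v : V4) : c.Good (c.S v w) := by
  rcases V4_cases v with rfl | rfl | rfl | rfl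
  · rwa [S_zero]
  · rw [S_10]
    exact h.s0
  · rw [S_01]
    exact h.mulω2.s0.mulω
  · rw [S_11]
    exact h.mulω.s0.mulω2

theorem Good.P_S {w : F} (h : c.Good w) (v : V4) : c.P (c.S v w) = c.P w := by
  rcases V4_cases v with rfl | rfl | rfl | rfl
  · rw [S_zero]
  · rw [S_10, P_s0 h.1]
  · rw [S_01, P_ω, P_s0 h.mulω2.1, P_ω2]
    linear_combination c.P w * (ω3 (c := c))
  · rw [S_11, P_ω2, P_s0 h.mulω.1, P_ω]
    linear_combination c.P w * (ω3 (c := c))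

/-- The basic relation `s0 s1 = s2`. -/
theorem s0_s1 {w : F} (h : 1 - 2 * c.a * w ^ 3 ≠ 0) :
    c.s0 (c.ω * c.s0 (c.ω ^ 2 * w)) = c.ω ^ 2 * c.s0 (c.ω * w) := by
  have h1 := aω2_ne h
  have h2 := aω_ne h
  have h3 := r_ne (c := c)
  have e1 : c.ω * c.s0 (c.ω ^ 2 * w) = -(w + c.a * c.ω) / (c.a * (c.ω ^ 2 * w) + 1) := by
    unfold Cst.s0
    rw [mul_div_assoc']
    congr 1
    linear_combination (-w) * (ω3 (c := c))
  have e2 : c.ω ^ 2 * c.s0 (c.ω * w) = -(w + c.a * c.ω ^ 2) / (c.a * (c.ω * w) + 1) := by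
    unfold Cst.s0
    rw [mul_div_assoc']
    congr 1
    linear_combination (-w) * (ω3 (c := c))
  have e3 : c.a * (-(w + c.a * c.ω) / (c.a * (c.ω ^ 2 * w) + 1)) + 1 =
      (1 + 2 * c.ω) * (c.a * (c.ω * w) + 1) / (c.a * (c.ω ^ 2 * w) + 1) := by
    rw [mul_div_assoc', div_add_one h1]
    congr 1
    linear_combination (- c.ω) * c.ha + (- c.a*w) * c.hω
  rw [e1, e2]
  have e4 : c.s0 (-(w + c.a * c.ω) / (c.a * (c.ω ^ 2 * w) + 1)) =
      -(-(w + c.a * c.ω) / (c.a * (c.ω ^ 2 * w) + 1) + c.a) /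
        (c.a * (-(w + c.a * c.ω) / (c.a * (c.ω ^ 2 * w) + 1)) + 1) := rfl
  have e5 : -(-(w + c.a * c.ω) / (c.a * (c.ω ^ 2 * w) + 1) + c.a) =
      -(1 + 2 * c.ω) * (w + c.a * c.ω ^ 2) / (c.a * (c.ω ^ 2 * w) + 1) := by
    rw [div_add' _ _ _ h1, ← neg_div]
    congr 1
    linear_combination (-c.ω ^ 2 * w) * c.ha
      + (2 * c.a * c.ω - c.a + 2 * w) * c.hω
  rw [e4, e3, e5, div_div_div_cancel_right₀ h1, neg_mul, neg_div, mul_div_mul_left _ _ h3, neg_div]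

theorem Good.S_add {w : F} (h : c.Good w) (v v' : V4) : c.S (v + v') w = c.S v (c.S v' w) := by
  have e1 : ∀ w : F, c.Good w → c.S (1, 0) (c.S (0, 1) w) = c.S (1, 1) w := by
    intro w hw
    rw [S_10, S_01, S_11, s0_s1 hw.1]
  have i0 : ∀ w : F, c.Good w → c.S (1, 0) (c.S (1, 0) w) = w := by
    intro w hw
    rw [S_10, S_10, s0_s0 (aw_ne hw.1)]
  have hω := ω3 (c := c)
  have i1 : ∀ w : F, c.Good w → c.S (0, 1) (c.S (0, 1) w) = w := by
    intro w hw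
    rw [S_01, S_01]
    have h1 : c.ω ^ 2 * (c.ω * c.s0 (c.ω ^ 2 * w)) = c.s0 (c.ω ^ 2 * w) := by
      linear_combination c.s0 (c.ω ^ 2 * w) * hω
    rw [h1, s0_s0 (aω2_ne hw.1)]
    linear_combination w * hω
  have i2 : ∀ w : F, c.Good w → c.S (1, 1) (c.S (1, 1) w) = w := by
    intro w hw
    rw [S_11, S_11]
    have h1 : c.ω * (c.ω ^ 2 * c.s0 (c.ω * w)) = c.s0 (c.ω * w) := by
      linear_combination c.s0 (c.ω * w) * hω
    rw [h1, s0_s0 (aω_ne hw.1)]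
    linear_combination w * hω
  -- `s1 s2 = s0`
  have e2 : ∀ w : F, c.Good w → c.S (0, 1) (c.S (1, 1) w) = c.S (1, 0) w := by
    intro w hw
    have h1 := e1 _ (hw.S (1, 1))
    rw [i2 w hw] at h1
    have h2 := i0 _ ((hw.S (1, 1)).S (0, 1))
    rw [h1] at h2
    exact h2.symm
  -- `s1 s0 = s2`
  have e3 : ∀ w : F, c.Good w → c.S (0, 1) (c.S (1, 0) w) = c.S (1, 1) w := by
    intro w hw
    have h1 := e2 w hw
    rw [← h1, i1 _ (hw.S (1, 1))]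
  -- `s2 s1 = s0`
  have e4 : ∀ w : F, c.Good w → c.S (1, 1) (c.S (0, 1) w) = c.S (1, 0) w := by
    intro w hw
    rw [← e1 _ (hw.S (0, 1)), i1 w hw]
  -- `s0 s2 = s1`
  have e5 : ∀ w : F, c.Good w → c.S (1, 0) (c.S (1, 1) w) = c.S (0, 1) w := by
    intro w hw
    rw [← e1 w hw, i0 _ (hw.S (0, 1))]
  -- `s2 s0 = s1`
  have e6 : ∀ w : F, c.Good w → c.S (1, 1) (c.S (1, 0) w) = c.S (0, 1) w := by
    intro w hw
    have h1 := e4 _ (hw.S (0, 1))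
    rw [i1 w hw] at h1
    have h2 := i2 _ (hw.S (1, 0))
    have h3 := e5 w hw
    have h4 := e4 w hw
    rw [← h4, i2 _ (hw.S (0, 1))]
  have a1 : ((1, 0) : V4) + (1, 0) = 0 := by decide
  have a2 : ((1, 0) : V4) + (0, 1) = (1, 1) := by decide
  have a3 : ((1, 0) : V4) + (1, 1) = (0, 1) := by decide
  have a4 : ((0, 1) : V4) + (1, 0) = (1, 1) := by decide
  have a5 : ((0, 1) : V4) + (0, 1) = 0 := by decide
  have a6 : ((0, 1) : V4) + (1, 1) = (1, 0) := by decide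
  have a7 : ((1, 1) : V4) + (1, 0) = (0, 1) := by decide
  have a8 : ((1, 1) : V4) + (0, 1) = (1, 0) := by decide
  have a9 : ((1, 1) : V4) + (1, 1) = 0 := by decide
  rcases V4_cases v with rfl | rfl | rfl | rfl
  · rw [zero_add, S_zero]
  · rcases V4_cases v' with rfl | rfl | rfl | rfl
    · rw [add_zero, S_zero]
    · rw [a1, S_zero, i0 w h]
    · rw [a2, e1 w h]
    · rw [a3, e5 w h]
  · rcases V4_cases v' with rfl | rfl | rfl | rfl
    · rw [add_zero, S_zero]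
    · rw [a4, e3 w h]
    · rw [a5, S_zero, i1 w h]
    · rw [a6, e2 w h]
  · rcases V4_cases v' with rfl | rfl | rfl | rfl
    · rw [add_zero, S_zero]
    · rw [a7, e6 w h]
    · rw [a8, e4 w h]
    · rw [a9, S_zero, i2 w h]

/-- a fixed point of `s0` lies over `-1` -/
theorem P_of_s0_eq {w : F} (h : 1 - 2 * c.a * w ^ 3 ≠ 0) (hw : c.s0 w = w) : c.P w = -1 := by
  have h1 := aw_ne h
  have h2 : c.a * w ^ 2 + 2 * w + c.a = 0 := by
    unfold Cst.s0 at hw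
    rw [div_eq_iff h1] at hw
    linear_combination (-1) * hw
  have h3 : (2 : F) ≠ 0 := by norm_num
  have h4 : 2 * (w ^ 4 - 2 * c.a * w ^ 3 - 2 * c.a * w + 1) = 0 := by
    linear_combination (w^4 + 2*w^2 + 1) * c.ha - (c.a * w ^ 2 + 2 * w + c.a) * h2
  have h5 : w ^ 4 - 2 * c.a * w ^ 3 - 2 * c.a * w + 1 = 0 := by
    rcases mul_eq_zero.mp h4 with h6 | h6
    · exact absurd h6 h3
    · exact h6
  unfold P
  rw [div_eq_iff h]
  linear_combination h5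

theorem Good.free {w : F} (h : c.Good w) (v : V4) (hv : c.S v w = w) : v = 0 := by
  have hω := ω3 (c := c)
  rcases V4_cases v with rfl | rfl | rfl | rfl
  · rfl
  · exfalso
    rw [S_10] at hv
    apply h.2.2
    rw [P_of_s0_eq h.1 hv]
    norm_num
  · exfalso
    rw [S_01] at hv
    have h1 : c.s0 (c.ω ^ 2 * w) = c.ω ^ 2 * w := by
      linear_combination c.ω ^ 2 * hv - c.s0 (c.ω ^ 2 * w) * hω
    have h2 := h.mulω2
    apply h2.2.2
    rw [P_of_s0_eq h2.1 h1]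
    norm_num
  · exfalso
    rw [S_11] at hv
    have h1 : c.s0 (c.ω * w) = c.ω * w := by
      linear_combination c.ω * hv - c.s0 (c.ω * w) * hω
    have h2 := h.mulω
    apply h2.2.2
    rw [P_of_s0_eq h2.1 h1]
    norm_num

omit [CharZero F] in
/-- `P w' = P w` iff `(w' - w)(w' - s0 w)(w' - s1 w)(w' - s2 w) = 0` -/
theorem Good.trans {w : F} (h : c.Good w) {w' : F} (hw : c.P w' = c.P w) :
    ∃ v, w' = c.S v w := by
  have h0 := h.1
  have h0' : 1 - 2 * c.a * w' ^ 3 ≠ 0 := by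
    intro h1
    apply h.2.1
    rw [← hw]
    unfold P
    rw [h1, div_zero]
  have h1 := aw_ne h0
  have h2 := aω_ne h0
  have h3 := aω2_ne h0
  have h4 : w' * (w' ^ 3 - 2 * c.a) * (1 - 2 * c.a * w ^ 3) =
      w * (w ^ 3 - 2 * c.a) * (1 - 2 * c.a * w' ^ 3) := by
    unfold P at hw
    rwa [div_eq_div_iff h0' h0] at hw
  have h5 : (w' - w) * (((c.a * w + 1) * w' + (w + c.a)) *
      (((c.a * (c.ω ^ 2 * w) + 1) * w' + (w + c.a * c.ω)) *
      ((c.a * (c.ω * w) + 1) * w' + (w + c.a * c.ω ^ 2)))) = 0 := by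
    linear_combination h4 - (c.a*c.ω^4*w^3*w'^2 - c.a*c.ω^4*w^2*w'^3 + c.a*c.ω^4*w^2*w' - c.a*c.ω^4*w*w'^2 +
      c.a*c.ω^3*w^4*w'^3 - c.a*c.ω^3*w^3*w'^4 + c.a*c.ω^3*w^3*w'^2 - c.a*c.ω^3*w^2*w'^3 +
      c.a*c.ω^3*w^2*w' - c.a*c.ω^3*w*w'^2 + c.a*c.ω^3*w - c.a*c.ω^3*w' + c.a*c.ω^2*w^3*w'^2 -
      c.a*c.ω^2*w^2*w'^3 + c.a*c.ω^2*w^2*w' - c.a*c.ω^2*w*w'^2 + c.ω^4*w^3*w' - c.ω^4*w*w'^3 +
      c.ω^3*w^4*w'^2 - c.ω^3*w^2*w'^4 + c.ω^3*w^2 - c.ω^3*w'^2 + c.ω^2*w^4*w'^2 + 3*c.ω^2*w^3*w'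
      - c.ω^2*w^2*w'^4 + c.ω^2*w^2 - 3*c.ω^2*w*w'^3 - c.ω^2*w'^2 + c.ω*w^4*w'^2 + 2*c.ω*w^3*w' -
      c.ω*w^2*w'^4 + c.ω*w^2 - 2*c.ω*w*w'^3 - c.ω*w'^2 + 4*w^3*w' - 4*w*w'^3) * c.ha - (- 2*c.a*c.ω^2*w^3*w'^2 + 2*c.a*c.ω^2*w^2*w'^3 - 2*c.a*c.ω^2*w^2*w' + 2*c.a*c.ω^2*w*w'^2 -
      2*c.a*c.ω*w^4*w'^3 + 2*c.a*c.ω*w^3*w'^4 - 2*c.a*c.ω*w + 2*c.a*c.ω*w' + 2*c.a*w^4*w'^3 +
      c.a*w^4*w' - 2*c.a*w^3*w'^4 + c.a*w^3*w'^2 + c.a*w^3 - c.a*w^2*w'^3 + c.a*w^2*w' -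
      c.a*w*w'^4 - c.a*w*w'^2 + 2*c.a*w - c.a*w'^3 - 2*c.a*w' - 2*c.ω^2*w^3*w' + 2*c.ω^2*w*w'^3
      - 2*c.ω*w^4*w'^2 + 2*c.ω*w^3*w' + 2*c.ω*w^2*w'^4 - 2*c.ω*w^2 - 2*c.ω*w*w'^3 + 2*c.ω*w'^2 -
      6*w^3*w' + 6*w*w'^3) * c.hω
  rcases mul_eq_zero.mp h5 with h6 | h6
  · refine ⟨0, ?_⟩
    rw [S_zero]
    exact sub_eq_zero.mp h6
  rcases mul_eq_zero.mp h6 with h7 | h7
  · refine ⟨(1, 0), ?_⟩
    rw [S_10]
    unfold Cst.s0
    rw [eq_div_iff h1]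
    linear_combination h7
  rcases mul_eq_zero.mp h7 with h8 | h8
  · refine ⟨(0, 1), ?_⟩
    rw [S_01]
    unfold Cst.s0
    rw [mul_div_assoc', eq_div_iff h3]
    linear_combination h8 + w * (ω3 (c := c))
  · refine ⟨(1, 1), ?_⟩
    rw [S_11]
    unfold Cst.s0
    rw [mul_div_assoc', eq_div_iff h2]
    linear_combination h8 + w * (ω3 (c := c))

theorem exists_P [IsAlgClosed F] (z : F) : ∃ w, 1 - 2 * c.a * w ^ 3 ≠ 0 ∧ c.P w = z := by
  let p : Polynomial F := Polynomial.X ^ 4 + Polynomial.C (2 * c.a * z) * Polynomial.X ^ 3 -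
    Polynomial.C (2 * c.a) * Polynomial.X - Polynomial.C z
  have hp : p.degree = 4 := by
    simp only [p]
    compute_degree!
  obtain ⟨w, hw⟩ := IsAlgClosed.exists_root p (by rw [hp]; decide)
  have h1 : w ^ 4 + 2 * c.a * z * w ^ 3 - 2 * c.a * w - z = 0 := by
    have h2 := hw
    simp only [p, Polynomial.IsRoot.def, Polynomial.eval_sub, Polynomial.eval_add,
      Polynomial.eval_mul, Polynomial.eval_pow, Polynomial.eval_X, Polynomial.eval_C] at h2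
    exact h2
  have h0 : 1 - 2 * c.a * w ^ 3 ≠ 0 := by
    intro h0
    have h2 : w * (w ^ 3 - 2 * c.a) = 0 := by
      linear_combination h1 + z * h0
    rcases mul_eq_zero.mp h2 with h3 | h3
    · rw [h3] at h0
      simp at h0
    · have h4 : (9 : F) = 0 := by
        linear_combination h0 + 2 * c.a * h3 + 4 * c.ha
      exact nine_ne' h4
  refine ⟨w, h0, ?_⟩
  unfold P
  rw [div_eq_iff h0]
  linear_combination h1

omit [CharZero F] in
theorem map_s0 {F' : Type*} [Field F'] (φ : F →+* F') (w : F) :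
    φ (c.s0 w) = (c.map φ).s0 (φ w) := by
  unfold Cst.s0 Cst.map
  simp only [map_div₀, map_neg, map_add, map_mul, map_one]

omit [CharZero F] in
/-- equivariance -/
theorem map_S {F' : Type*} [Field F'] (φ : F →+* F') (v : V4) (w : F) :
    φ (c.S v w) = (c.map φ).S v (φ w) := by
  have hω : (c.map φ).ω = φ c.ω := rfl
  rcases V4_cases v with rfl | rfl | rfl | rfl
  · rw [S_zero, S_zero]
  · rw [S_10, S_10, map_s0]
  · rw [S_01, S_01, hω, map_mul, map_s0, map_mul, map_pow]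
  · rw [S_11, S_11, hω, map_mul, map_s0, map_mul, map_pow]

omit [CharZero F] in
theorem map_P {F' : Type*} [Field F'] (φ : F →+* F') (w : F) :
    φ (c.P w) = (c.map φ).P (φ w) := by
  unfold Cst.P Cst.map
  simp only [map_div₀, map_sub, map_mul, map_one, map_pow, map_ofNat]

omit [CharZero F] in
theorem map_X {F' : Type*} [Field F'] (φ : F →+* F') (w : F) :
    φ (c.X w) = (c.map φ).X (φ w) := by
  unfold Cst.X Cst.map
  simp only [map_div₀, map_neg, map_add, map_mul, map_one]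

omit [CharZero F] in
theorem b_s0 (b : F ≃+* F) (ha : b c.a = c.a) (w : F) :
    b (c.s0 w) = c.s0 (b w) := by
  unfold Cst.s0
  simp only [map_div₀, map_neg, map_add, map_mul, map_one, ha]

omit [CharZero F] in
theorem b_S (b : F ≃+* F) (ha : b c.a = c.a) (hω : b c.ω = c.ω) (v : V4) (w : F) :
    b (c.S v w) = c.S v (b w) := by
  rcases V4_cases v with rfl | rfl | rfl | rfl
  · rw [S_zero, S_zero]
  · rw [S_10, S_10, b_s0 b ha]
  · rw [S_01, S_01, map_mul, b_s0 b ha, map_mul, map_pow, hω]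
  · rw [S_11, S_11, map_mul, b_s0 b ha, map_mul, map_pow, hω]

omit [CharZero F] in
theorem b_P (b : F ≃+* F) (ha : b c.a = c.a) (w : F) : b (c.P w) = c.P (b w) := by
  unfold Cst.P
  simp only [map_div₀, map_sub, map_mul, map_one, map_pow, map_ofNat, ha]

omit [CharZero F] in
theorem b_X (b : F ≃+* F) (ha : b c.a = c.a) (w : F) : b (c.X w) = c.X (b w) := by
  unfold Cst.X
  simp only [map_div₀, map_neg, map_add, map_mul, map_one, ha]

theorem a_sq_ne_one : c.a ^ 2 ≠ 1 := by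
  intro h
  have h3 : (3 : F) = 0 := by
    linear_combination c.ha - h
  exact three_ne' h3

theorem four_a_sq_ne_one : 4 * c.a ^ 2 ≠ 1 := by
  intro h
  have h3 : (9 : F) = 0 := by
    linear_combination 4 * c.ha - h
  exact nine_ne' h3

omit [CharZero F] in
theorem m_eq : c.m ^ 2 + 2 * c.a * c.m + 1 = 0 := by
  unfold m
  linear_combination (-1) * c.ha + 4 * c.hω

theorem m_ne : c.m ≠ 0 ∧ c.m ^ 6 ≠ 1 := by
  have h := m_eq (c := c)
  have h0 : c.m ≠ 0 := by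
    intro h0
    rw [h0] at h
    simp at h
  refine ⟨h0, ?_⟩
  intro h6
  have h1 : (c.m ^ 2 - 1) * ((c.m ^ 2 + c.m + 1) * (c.m ^ 2 - c.m + 1)) = 0 := by
    linear_combination h6
  rcases mul_eq_zero.mp h1 with h2 | h2
  · have h3 : c.a * c.m = -1 := by
      have h2' : (2 : F) ≠ 0 := by norm_num
      apply mul_left_cancel₀ h2'
      linear_combination h - h2
    apply a_sq_ne_one (c := c)
    linear_combination (c.a * c.m - 1) * h3 - c.a ^ 2 * h2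
  rcases mul_eq_zero.mp h2 with h3 | h3
  · have h4 : (1 - 2 * c.a) * c.m = 0 := by
      linear_combination h3 - h
    have h5 : 1 - 2 * c.a = 0 := (mul_eq_zero.mp h4).resolve_right h0
    apply four_a_sq_ne_one (c := c)
    linear_combination (-1 - 2 * c.a) * h5
  · have h4 : (1 + 2 * c.a) * c.m = 0 := by
      linear_combination h - h3
    have h5 : 1 + 2 * c.a = 0 := (mul_eq_zero.mp h4).resolve_right h0
    apply four_a_sq_ne_one (c := c)
    linear_combination (-1 + 2 * c.a) * h5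

omit [CharZero F] in
theorem root_ne {z u : F} (h : z ^ 13 = u) (hu : u ≠ 0 ∧ u ^ 6 ≠ 1) : z ≠ 0 ∧ z ^ 6 ≠ 1 := by
  refine ⟨?_, ?_⟩
  · intro h0
    apply hu.1
    rw [← h, h0]
    simp
  · intro h6
    apply hu.2
    rw [← h, ← pow_mul, mul_comm, pow_mul, h6, one_pow]

omit [CharZero F] in
theorem child_ne {w z : F} (h : 1 - 2 * c.a * w ^ 3 ≠ 0) (hz : c.P w = z)
    (hu : z ≠ 0 ∧ z ^ 6 ≠ 1) : w ≠ 0 ∧ w ^ 6 ≠ 1 := by
  refine ⟨?_, ?_⟩
  · intro h0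
    apply hu.1
    rw [← hz, h0]
    unfold P
    simp
  · intro h6
    apply hu.2
    rw [← hz]
    have h1 : (w ^ 3 - 1) * (w ^ 3 + 1) = 0 := by
      linear_combination h6
    have h2 : c.P w = w ∨ c.P w = -w := by
      unfold P
      rcases mul_eq_zero.mp h1 with h2 | h2
      · left
        rw [div_eq_iff h]
        linear_combination (w + 2 * c.a * w) * h2
      · right
        rw [div_eq_iff h]
        linear_combination (w - 2 * c.a * w) * h2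
    rcases h2 with h2 | h2
    · rw [h2, h6]
    · rw [h2]
      linear_combination h6

theorem MS_ne {j : ℕ} {z : F} (hz : z ∈ c.MS j) : z ≠ 0 ∧ z ^ 6 ≠ 1 := by
  induction j generalizing z with
  | zero =>
    have h : z = c.m := hz
    rw [h]
    exact m_ne
  | succ j ih =>
    have h1 := ih hz.2
    exact child_ne hz.1 rfl (root_ne rfl h1)

/-- nodes are not zero and not sixth roots of one -/
theorem LS_ne {j : ℕ} {z : F} (hz : z ∈ c.LS j) : z ≠ 0 ∧ z ^ 6 ≠ 1 :=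
  root_ne rfl (MS_ne hz)

theorem MS_good {j : ℕ} {w : F} (hw : w ∈ c.MS (j + 1)) : c.Good w :=
  ⟨hw.1, LS_ne (j := j) hw.2⟩

omit [CharZero F] in
theorem R1_X {w : F} (h : 1 - 2 * c.a * w ^ 3 ≠ 0) : R1 (c.X w) = c.P w := by
  have h1 := aw_ne h
  have hX : c.X w * (c.a * w + 1) = -(w * (w + c.a)) := by
    unfold X
    rw [div_mul_cancel₀ _ h1]
  have h2 : (c.a * w + 1) ^ 2 * (2 * c.X w + 1) = 1 - 2 * c.a * w ^ 3 := by
    linear_combination (2 * (c.a * w + 1)) * hX + (c.a * w ^ 3 * 0 - w ^ 2) * c.ha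
  have h3 : 2 * c.X w + 1 ≠ 0 := by
    intro h3
    apply h
    rw [← h2, h3, mul_zero]
  have h4 : (c.a * w + 1) ^ 2 * (c.X w * (c.X w + 2)) = w * (w ^ 3 - 2 * c.a) := by
    have h5 : (c.a * w + 1) ^ 2 * (c.X w * (c.X w + 2)) =
      (c.X w * (c.a * w + 1)) * (c.X w * (c.a * w + 1) + 2 * (c.a * w + 1)) := by ring
    rw [h5, hX]
    linear_combination (-w ^ 2) * c.ha
  unfold R1 P
  rw [← h2, ← h4, mul_div_mul_left _ _ (pow_ne_zero 2 h1)]

omit [CharZero F] in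
/-- `(X w - P w + 1)^2 = D (P w)` -/
theorem X_sq {w : F} (h : 1 - 2 * c.a * w ^ 3 ≠ 0) :
    (c.X w - c.P w + 1) ^ 2 = D (c.P w) := by
  have h1 := aw_ne h
  have hX : c.X w * (c.a * w + 1) = -(w * (w + c.a)) := by
    unfold X
    rw [div_mul_cancel₀ _ h1]
  have h2 : (c.a * w + 1) ^ 2 * (2 * c.X w + 1) = 1 - 2 * c.a * w ^ 3 := by
    linear_combination (2 * (c.a * w + 1)) * hX + (c.a * w ^ 3 * 0 - w ^ 2) * c.ha
  have h3 : 2 * c.X w + 1 ≠ 0 := by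
    intro h3
    apply h
    rw [← h2, h3, mul_zero]
  have h4 : c.P w * (2 * c.X w + 1) = c.X w * (c.X w + 2) := by
    rw [← R1_X h]
    unfold R1
    rw [div_mul_cancel₀ _ h3]
  unfold D
  linear_combination (-1) * h4

/-- `s0` is the deck transformation of `X` -/
theorem X_s0 {w : F} (h : 1 - 2 * c.a * w ^ 3 ≠ 0) : c.X (c.s0 w) = c.X w := by
  have h1 := aw_ne h
  have hX : ∀ w : F, c.X w = w * c.s0 w := by
    intro w
    unfold X Cst.s0
    ring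
  rw [hX, hX, s0_s0 h1, mul_comm]

omit [CharZero F] in
theorem X_eq {w w' : F} (h : 1 - 2 * c.a * w ^ 3 ≠ 0) (h' : 1 - 2 * c.a * w' ^ 3 ≠ 0)
    (hX : c.X w = c.X w') : w' = w ∨ w' = c.s0 w := by
  have h1 := aw_ne h
  have h1' := aw_ne h'
  unfold X at hX
  rw [div_eq_div_iff h1 h1'] at hX
  have h2 : (w' - w) * ((c.a * w + 1) * w' + (w + c.a)) = 0 := by
    linear_combination hX
  rcases mul_eq_zero.mp h2 with h3 | h3
  · left
    exact sub_eq_zero.mp h3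
  · right
    unfold Cst.s0
    rw [eq_div_iff h1]
    linear_combination h3

omit [CharZero F] in
theorem P_inv {w : F} (hw : w ≠ 0) : c.P w⁻¹ = (c.P w)⁻¹ := by
  unfold P
  rw [inv_div]
  have h1 : w⁻¹ * ((w⁻¹) ^ 3 - 2 * c.a) = (1 - 2 * c.a * w ^ 3) / w ^ 4 := by
    field_simp
  have h2 : 1 - 2 * c.a * (w⁻¹) ^ 3 = (w * (w ^ 3 - 2 * c.a)) / w ^ 4 := by
    field_simp
  rw [h1, h2, div_div_div_cancel_right₀ (pow_ne_zero 4 hw)]

omit [CharZero F] in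
theorem X_inv {w : F} (hw : w ≠ 0) : c.X w⁻¹ = (c.X w)⁻¹ := by
  unfold X
  rw [inv_div]
  have h1 : -(w⁻¹ * (w⁻¹ + c.a)) = -(c.a * w + 1) / w ^ 2 := by
    field_simp
    ring
  have h2 : c.a * w⁻¹ + 1 = (w * (w + c.a)) / w ^ 2 := by
    field_simp
    ring
  rw [h1, h2, div_div_div_cancel_right₀ (pow_ne_zero 2 hw), neg_div, div_neg]

end Pool.Agent.Arb.Cst
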